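import Mathlib

set_option autoImplicit false

namespace Pool.Agent.Results.MP_07bc1a_al.Counterexample

/-- Invariants of a word in `a, b, c`: the number of `b`, the length before the first `b`, the
number of `c` after the last `b`, and the number of `c` minus the number of `a`. -/
@[ext] structure M where
  d : ℕ
  l : ℕ
  g : ℕ
  e : ℤ

instance : Mul M := ⟨fun x y => ⟨x.d + y.d, if x.d = 0 then x.l + y.l else x.l,
  if y.d = 0 then x.g + y.g else y.g, x.e + y.e⟩⟩
instance : One M := ⟨⟨0, 0, 0, 0⟩⟩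

lemma mul_d (x y : M) : (x * y).d = x.d + y.d := rfl
lemma mul_l (x y : M) : (x * y).l = if x.d = 0 then x.l + y.l else x.l := rfl
lemma mul_g (x y : M) : (x * y).g = if y.d = 0 then x.g + y.g else y.g := rfl
lemma mul_e (x y : M) : (x * y).e = x.e + y.e := rfl
lemma one_def : (1 : M) = ⟨0, 0, 0, 0⟩ := rfl

instance : Monoid M where
  mul_assoc x y z := by
    ext <;> simp only [mul_d, mul_l, mul_g, mul_e] <;> (try split_ifs) <;> omega
  one_mul x := by ext <;> simp [mul_d, mul_l, mul_g, mul_e, one_def]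
  mul_one x := by ext <;> simp [mul_d, mul_l, mul_g, mul_e, one_def]

def a : M := ⟨0, 1, 0, -1⟩
def b : M := ⟨1, 0, 0, 0⟩
def c : M := ⟨0, 1, 1, 1⟩

abbrev H : Submonoid M := Submonoid.closure {a, b, c}

lemma inv (x : H) : x.1.d = 0 → x.1.g ≤ x.1.l ∧ x.1.e = 2 * x.1.g - x.1.l := by
  refine Submonoid.closure_induction 
    (motive := fun (x : M) _ => x.d = 0 → x.g ≤ x.l ∧ x.e = 2 * x.g - x.l)
    ?_ (by simp [one_def]) ?_ x.2
  · rintro x (rfl | rfl | rfl) <;> simp [a, b, c]
  · intro x y _ _ hx hy h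
    simp only [mul_d, mul_l, mul_g, mul_e] at h ⊢
    split_ifs <;> omega

lemma xk (k : ℕ) : b * c ^ k * b = ⟨2, 0, 0, k⟩ := by
  have : c ^ k = ⟨0, k, k, k⟩ := by
    induction k with
    | zero => rfl
    | succ k ih => rw [pow_succ, ih]; rfl
  rw [this]
  ext <;> simp [mul_d, mul_l, mul_g, mul_e, b]

/-- The principal two-sided ideal `HxH`. -/
def tI {H : Type} [Monoid H] (x : H) : Set H := {z | ∃ h k, z = h * x * k}

/-- A finitely generated acyclic monoid without the ACCP. -/
theorem result : ∃ (H : Type) (_ : Monoid H), Monoid.FG H ∧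
    (∀ u v x : H, (¬ IsUnit u ∨ ¬ IsUnit v) → u * x * v ≠ x) ∧
    ∃ x : ℕ → H, ∀ k, tI (x k) ⊂ tI (x (k + 1)) := by
  have ha : a ∈ H := Submonoid.subset_closure (by simp)
  have hb : b ∈ H := Submonoid.subset_closure (by simp)
  have hc : c ∈ H := Submonoid.subset_closure (by simp)
  refine ⟨H, inferInstance, Monoid.closure_finite_fg _, fun u v x huv e => ?_,
    fun k => ⟨⟨2, 0, 0, k⟩, xk k ▸ mul_mem (mul_mem hb (pow_mem hc k)) hb⟩,
    fun k => ⟨?_, fun h => ?_⟩⟩
  · have hu := inv u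
    have hv := inv v
    have e' := M.ext_iff.mp (congrArg Subtype.val e)
    simp only [Submonoid.coe_mul, mul_d, mul_l, mul_g, mul_e] at e'
    have : u = 1 ∧ v = 1 := by
      simp only [Subtype.ext_iff, M.ext_iff, Submonoid.coe_one, one_def]
      split_ifs at e' <;> omega
    simp [this.1, this.2] at huv
  · rintro _ ⟨h, j, rfl⟩
    refine ⟨h, ⟨a, ha⟩ * j, ?_⟩
    rw [← mul_assoc, mul_assoc h _ ⟨a, ha⟩]
    congr 2
    ext <;> simp [mul_d, mul_l, mul_g, mul_e, a]
  · obtain ⟨u, v, e⟩ := h ⟨1, 1, by rw [one_mul, mul_one]⟩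
    have hu := inv u
    have hv := inv v
    have e' := M.ext_iff.mp (congrArg Subtype.val e)
    simp only [Submonoid.coe_mul, mul_d, mul_l, mul_g, mul_e] at e'
    split_ifs at e' <;> omega

end Pool.Agent.Results.MP_07bc1a_al.Counterexample
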